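import Pool.Agent.Helper95.KU.FiveGlobal

set_option autoImplicit false

/-!
# Non-CM curves, isogenous curves, curves without torsion up to isogeny
-/

namespace Pool.Agent.Helper80.KC

open Pool.Agent.Helper28.Koblitz

/-- The `j`-invariant of `E`. -/
def jInv (E : WeierstrassCurve ℤ) : ℚ := (E.c₄ : ℚ) ^ 3 / (E.Δ : ℚ)

/-- `E` is an elliptic curve over `ℚ` without complex multiplication, as in the problem: `Δ ≠ 0` and
`j(E)` is not one of the thirteen CM values. -/
def NonCM (E : WeierstrassCurve ℤ) : Prop :=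
  E.Δ ≠ 0 ∧ jInv E ∉ ({0, 1728, -3375, 8000, -32768, 54000, 287496, -884736,
    -12288000, 16581375, -884736000, -147197952000, -262537412640768000} : Set ℚ)

/-- `E'` and `E` have the same number of points modulo almost all primes, that is, they are
isogenous over `ℚ` (Faltings). -/
def Isogenous (E' E : WeierstrassCurve ℤ) : Prop :=
  {p : ℕ | p.Prime ∧ numPts E' p ≠ numPts E p}.Finite

/-- There are two primes `p, q > 3` of good reduction with coprime numbers of points. Hence no curve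
isogenous to `E` has a rational torsion point other than `0`. -/
def NoTorsion (E : WeierstrassCurve ℤ) : Prop :=
  ∃ p q : ℕ, p.Prime ∧ q.Prime ∧ 3 < p ∧ 3 < q ∧ ¬ ((p : ℤ) ∣ E.Δ) ∧ ¬ ((q : ℤ) ∣ E.Δ) ∧
    (numPts E p).Coprime (numPts E q)

theorem NonCM.c₄_ne_zero {E : WeierstrassCurve ℤ} (h : NonCM E) : E.c₄ ≠ 0 := by
  intro h4
  apply h.2
  left
  simp [jInv, h4]

theorem NonCM.c₆_ne_zero {E : WeierstrassCurve ℤ} (h : NonCM E) : E.c₆ ≠ 0 := by
  intro h6
  apply h.2
  right
  left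
  have h1 := E.c_relation
  rw [h6] at h1
  have h2 : ((1728 * E.Δ : ℤ) : ℚ) = ((E.c₄ ^ 3 - 0 ^ 2 : ℤ) : ℚ) := by rw [h1]
  push_cast at h2
  have hΔ : (E.Δ : ℚ) ≠ 0 := by exact_mod_cast h.1
  unfold jInv
  rw [div_eq_iff hΔ]
  linarith

theorem nonCM_of_lt {E : WeierstrassCurve ℤ} (h : 16581375 < jInv E) : NonCM E := by
  refine ⟨?_, ?_⟩
  · intro h0
    unfold jInv at h
    rw [h0] at h
    norm_num at h
  · intro hmem
    simp only [Set.mem_insert_iff, Set.mem_singleton_iff] at hmem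
    rcases hmem with h1 | h1 | h1 | h1 | h1 | h1 | h1 | h1 | h1 | h1 | h1 | h1 | h1 <;>
      rw [h1] at h <;> norm_num at h

end Pool.Agent.Helper80.KC
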