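import Pool.Agent.Helper95.KU.FiveInf
import Pool.Agent.Helper95.KU.FamThree
import Pool.Agent.Helper95.KU.FamGap
import Pool.Agent.Helper95.KU.DiscTwist
import Pool.Agent.Helper82.KZ.Infinite
import Pool.Agent.Helper80.KC.Defs

set_option autoImplicit false

/-!
# Non-CM curves without a torsion obstruction and with vanishing Koblitz constant, for almost all `t`
-/

namespace Pool.Agent.Helper80.KC

open Pool.Agent.Helper28.Koblitz Pool.Agent.Helper95.KU Filter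

/-- The Koblitz problem for `(E, t)` has no torsion obstruction: there are two primes `p, q > 3` of
good reduction such that the greatest common divisor of `|E(𝔽_p)|` and `|E(𝔽_q)|` divides `t`. Then
the order of the torsion group of every curve isogenous to `E` divides `t`. -/
def NoTorsionObstruction (E : WeierstrassCurve ℤ) (t : ℕ) : Prop :=
  ∃ p q : ℕ, p.Prime ∧ q.Prime ∧ 3 < p ∧ 3 < q ∧ ¬ ((p : ℤ) ∣ E.Δ) ∧ ¬ ((q : ℤ) ∣ E.Δ) ∧
    Nat.gcd (numPts E p) (numPts E q) ∣ t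

theorem at_even_case (t : ℕ) (ht : Even t) (h28 : ¬ 28 ∣ t) (B : ℚ) : ∃ E : WeierstrassCurve ℤ,
    E.c₄ ≠ 0 ∧ E.c₆ ≠ 0 ∧ B < (E.c₄ : ℚ) ^ 3 / (E.Δ : ℚ) ∧ NoTorsionObstruction E t ∧
      KoblitzZero E t := by
  obtain ⟨E, v, h, hj, g5, n5, g7, n7⟩ := Pool.Agent.Helper82.KZ.exists_member B
  refine ⟨E, h.c₄_ne_zero, h.c₆_ne_zero, hj, ⟨5, 7, by norm_num, by norm_num, by norm_num,
    by norm_num, g5, g7, ?_⟩, ?_⟩
  · rw [n5, n7]; norm_num
  · have hfin : {p : ℕ | p.Prime ∧ ¬ (Odd (numPts E p) ∨ 28 ∣ numPts E p)}.Finite :=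
      Pool.Agent.Helper82.KZ.finite_exceptional h
    apply koblitz_of_finite E h.c₄_ne_zero h.c₆_ne_zero t 28 (by norm_num)
    refine hfin.subset ?_
    rintro p ⟨hp, hgood, u, hu, hN⟩
    refine ⟨hp, fun h1 => h28 ?_⟩
    exact Pool.Agent.Helper82.KZ.dvd_of_unit_mul ht.two_dvd hN hu h1

theorem at_odd_case (t : ℕ) (ht : Odd t) (h5 : ¬ 5 ∣ t) (B : ℚ) : ∃ E : WeierstrassCurve ℤ,
    E.c₄ ≠ 0 ∧ E.c₆ ≠ 0 ∧ B < (E.c₄ : ℚ) ^ 3 / (E.Δ : ℚ) ∧ NoTorsionObstruction E t ∧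
      KoblitzZero E t := by
  obtain ⟨b, hb, hj, g7, n7, g11, n11⟩ := exists_memT B
  refine ⟨memT b, memT_c₄_ne_zero hb, memT_c₆_ne_zero hb, hj, ⟨7, 11, by norm_num, by norm_num,
    by norm_num, by norm_num, g7, g11, ?_⟩, koblitzZero_memT hb t ht h5⟩
  rw [n7, n11]; norm_num

theorem at_five_case (t : ℕ) (ht : Odd t) (h5 : 5 ∣ t) (B : ℚ) : ∃ E : WeierstrassCurve ℤ,
    E.c₄ ≠ 0 ∧ E.c₆ ≠ 0 ∧ B < (E.c₄ : ℚ) ^ 3 / (E.Δ : ℚ) ∧ NoTorsionObstruction E t ∧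
      KoblitzZero E t := by
  obtain ⟨E, w, h, hj, g7, n7, g11, n11⟩ := exists_memberFive B
  refine ⟨E, h.c₄_ne_zero, h.c₆_ne_zero, hj, ⟨7, 11, by norm_num, by norm_num,
    by norm_num, by norm_num, g7, g11, ?_⟩, ?_⟩
  · rw [n7, n11]; norm_num
  · refine koblitzZero_five h E h.c₄_ne_zero h.c₆_ne_zero ?_ t ht h5
    have : {p : ℕ | p.Prime ∧ numPts E p ≠ numPts E p} = ∅ := by
      ext p; simp
    rw [this]
    exact Set.finite_empty

theorem at_eight_case (t : ℕ) (ht : 8 ∣ t) (h3 : ¬ 3 ∣ t) (B : ℚ) : ∃ E : WeierstrassCurve ℤ,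
    E.c₄ ≠ 0 ∧ E.c₆ ≠ 0 ∧ B < (E.c₄ : ℚ) ^ 3 / (E.Δ : ℚ) ∧ NoTorsionObstruction E t ∧
      KoblitzZero E t := by
  obtain ⟨l, hl, hj, g7, n7, g11, n11⟩ := exists_mem3 B
  refine ⟨mem3 l, mem3_c₄_ne_zero hl, mem3_c₆_ne_zero hl, hj, ⟨7, 11, by norm_num, by norm_num,
    by norm_num, by norm_num, g7, g11, ?_⟩, koblitzZero_mem3 hl t ht h3⟩
  rw [n7, n11]
  exact dvd_trans (by norm_num) ht

theorem at_gap_case (t : ℕ) (ht : t % 16 = 8) (B : ℚ) : ∃ E : WeierstrassCurve ℤ,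
    E.c₄ ≠ 0 ∧ E.c₆ ≠ 0 ∧ B < (E.c₄ : ℚ) ^ 3 / (E.Δ : ℚ) ∧ NoTorsionObstruction E t ∧
      KoblitzZero E t := by
  obtain ⟨k, hk, hj, g11, n11, g13, n13⟩ := exists_memG B
  refine ⟨memG k, memG_c₄_ne_zero hk, memG_c₆_ne_zero hk, hj, ⟨11, 13, by norm_num, by norm_num,
    by norm_num, by norm_num, g11, g13, ?_⟩, koblitzZero_memG hk t ht⟩
  rw [n11, n13]
  have : 4 ∣ t := by omega
  exact dvd_trans (by norm_num) this

theorem at_case_all (t : ℕ) (h28 : t % 56 ≠ 28) (h336 : ¬ 336 ∣ t) (B : ℚ) :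
    ∃ E : WeierstrassCurve ℤ, E.c₄ ≠ 0 ∧ E.c₆ ≠ 0 ∧ B < (E.c₄ : ℚ) ^ 3 / (E.Δ : ℚ) ∧
      NoTorsionObstruction E t ∧ KoblitzZero E t := by
  rcases Nat.even_or_odd t with ht | ht
  · by_cases h : 28 ∣ t
    · have h2 := ht.two_dvd
      have h8 : 8 ∣ t := by omega
      by_cases h3 : 3 ∣ t
      · exact at_gap_case t (by omega) B
      · exact at_eight_case t h8 h3 B
    · exact at_even_case t ht h B
  · by_cases h5 : 5 ∣ t
    · exact at_five_case t ht h5 B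
    · exact at_odd_case t ht h5 B

/-- Let `t` be a natural number which is not `28` modulo `56` and not divisible by `336`. There are
elliptic curves `E` over `ℚ` without complex multiplication, with arbitrarily large `j`-invariants,
such that only finitely many primes `p ∤ Δ` have `|E(𝔽_p)|/t` prime, `C_{E,t} = 0`, and the refined
Koblitz conjecture holds for `(E, t)`, although the torsion of the curves isogenous to `E` is no
obstruction: the greatest common divisor of `|E(𝔽_p)|` and `|E(𝔽_q)|` divides `t` for two primes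
`p, q > 3` of good reduction. -/
theorem almost_every_t : ∀ t : ℕ, t % 56 ≠ 28 → ¬ 336 ∣ t → ∀ B : ℚ, ∃ E : WeierstrassCurve ℤ,
    NonCM E ∧ B < jInv E ∧ NoTorsionObstruction E t ∧ KoblitzZero E t := by
  intro t h28 h336 B
  obtain ⟨E, -, -, hj, h1, h2⟩ := at_case_all t h28 h336 (max B 16581375)
  exact ⟨E, nonCM_of_lt (lt_of_le_of_lt (le_max_right _ _) hj),
    lt_of_le_of_lt (le_max_left _ _) hj, h1, h2⟩

end Pool.Agent.Helper80.KC
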