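import Pool.Agent.Helper28.Koblitz.Witness
import Pool.Agent.Helper95.KU.FiveInf
import Pool.Agent.Helper95.KU.FamTwist
import Pool.Agent.Helper80.KC.Defs

set_option autoImplicit false

/-!
# The refined Koblitz conjecture for every odd `t` divisible by `5`, for all quadratic twists
-/

namespace Pool.Agent.Helper80.KC

open Pool.Agent.Helper28.Koblitz Pool.Agent.Helper95.KU

/-- Quadratic twists of members are members. -/
theorem memberFive_twist {E : WeierstrassCurve ℤ} {w : ℚ} (h : MemberFive E w) {d : ℤ} (hd : d ≠ 0) :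
    MemberFive (quadTwist E d) w := by
  obtain ⟨hw, s, D, hD, hs, h4, h6⟩ := h
  have hd' : (d : ℚ) ≠ 0 := by exact_mod_cast hd
  refine ⟨hw, s, 36 * d * D, mul_ne_zero (mul_ne_zero (by norm_num) hd') hD, hs, ?_, ?_⟩
  · rw [quadTwist_c₄]
    have : ((6 ^ 4 * E.c₄ * d ^ 2 : ℤ) : ℚ) = 6 ^ 4 * (E.c₄ : ℚ) * (d : ℚ) ^ 2 := by push_cast; ring
    rw [this, h4]
    ring
  · rw [quadTwist_c₆]
    have : ((6 ^ 6 * E.c₆ * d ^ 3 : ℤ) : ℚ) = 6 ^ 6 * (E.c₆ : ℚ) * (d : ℚ) ^ 3 := by push_cast; ring
    rw [this, h6]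
    ring

/-- There are elliptic curves `E` over `ℚ` without complex multiplication, with arbitrarily large
`j`-invariants and without torsion in the isogeny class, such that the refined Koblitz conjecture
(with only finitely many prime values, and constant zero) holds for **every odd `t` which is
divisible by `5`**, for all quadratic twists of `E` and for all elliptic curves isogenous to these;
moreover `|E^D(𝔽_p)|` is even if it is divisible by `5`, for almost all primes `p`. -/
theorem odd_multiples_of_five : ∀ B : ℚ, ∃ E : WeierstrassCurve ℤ, NonCM E ∧ B < jInv E ∧ NoTorsion E ∧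
    ∀ D : ℤ, D ≠ 0 →
      {p : ℕ | p.Prime ∧ 5 ∣ numPts (quadTwist E D) p ∧ ¬ 2 ∣ numPts (quadTwist E D) p}.Finite ∧
      ∀ E' : WeierstrassCurve ℤ, NonCM E' → Isogenous E' (quadTwist E D) →
        ∀ t : ℕ, Odd t → 5 ∣ t → KoblitzZero E' t := by
  intro B
  obtain ⟨E, w, h, hj, g7, n7, g11, n11⟩ := exists_memberFive (max B 16581375)
  refine ⟨E, nonCM_of_lt (lt_of_le_of_lt (le_max_right _ _) hj),
    lt_of_le_of_lt (le_max_left _ _) hj,
    ⟨7, 11, by norm_num, by norm_num, by norm_num, by norm_num, g7, g11, ?_⟩,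
    fun D hD => ⟨finite_odd (memberFive_twist h hD), fun E' hE' hiso t ht h5 =>
      koblitzZero_five (memberFive_twist h hD) E' hE'.c₄_ne_zero hE'.c₆_ne_zero hiso t ht h5⟩⟩
  rw [n7, n11]; norm_num

end Pool.Agent.Helper80.KC
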