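import Pool.Agent.Helper95.KU.FiveInf
import Pool.Agent.Helper95.KU.FamTwist
import Pool.Agent.Helper95.KU.NonsplitThree

set_option autoImplicit false

/-!
# Exceptional image modulo five and the refined Koblitz conjecture

There is a one-parameter family of `j`-invariants such that, for all elliptic curves `E` over `ℚ`
with such a `j`-invariant (all quadratic twists), `|E(𝔽_p)|` is even whenever it is divisible
by `5`, for almost all primes `p`. These are the curves whose image modulo `5` has the projective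
image `S₄` and whose 2-division field is the `S₃`-extension contained in the projective 5-division
field. The statement for the normaliser of the nonsplit Cartan subgroup modulo `3` is included.
-/

namespace Pool.Agent.Results.MP_b89fd0_nt.ExceptionalFive

open Pool.Agent.Helper28.Koblitz Pool.Agent.Helper95.KU Filter

/-- Quadratic twists of members are members. -/
theorem member_twist {E : WeierstrassCurve ℤ} {w : ℚ} (h : MemberFive E w) {d : ℤ} (hd : d ≠ 0) :
    MemberFive (quadTwist E d) w := by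
  obtain ⟨hw, s, D, hD, hs, h4, h6⟩ := h
  have hd' : (d : ℚ) ≠ 0 := by exact_mod_cast hd
  refine ⟨hw, s, 36 * d * D, mul_ne_zero (mul_ne_zero (by norm_num) hd') hD, hs, ?_, ?_⟩
  · rw [quadTwist_c₄]
    have : ((6 ^ 4 * E.c₄ * d ^ 2 : ℤ) : ℚ) = 6 ^ 4 * (E.c₄ : ℚ) * (d : ℚ) ^ 2 := by push_cast; ring
    rw [this, h4]
    ring
  · rw [quadTwist_c₆]
    have : ((6 ^ 6 * E.c₆ * d ^ 3 : ℤ) : ℚ) = 6 ^ 6 * (E.c₆ : ℚ) * (d : ℚ) ^ 3 := by push_cast; ring
    rw [this, h6]
    ring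

/-- **The refined Koblitz conjecture for curves with exceptional image modulo `5` (and for the
normaliser of the nonsplit Cartan subgroup modulo `3`).**

(1) Let `E` be an elliptic curve over `ℚ` given by an integral Weierstrass equation which is a
member of the family `MemberFive`: `c₄ = 5 a t D²`, `c₆ = 25 a s b D³` with rational `D ≠ 0` and
`s = -(w - 5)(w² + 10 w + 5)/(10 (w² - 5))`, `w ∈ ℚ`, `w ≠ 5`, `t = 5 s² + 3`, `a = t² + 5 t + 40`,
`b = t² + 4 t + 24`. Then `c₄ c₆ ≠ 0`, all quadratic twists of `E` are members, and for almost all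
primes `p` the number `|E(𝔽_p)|` is even if it is divisible by `5`. For **every odd `t` divisible
by `5`** and every curve `E'` isogenous to `E` (same number of points modulo almost all primes):
there are only finitely many primes `p ∤ Δ(E')` such that `|E'(𝔽_p)|/t` is a prime, `C_{E',t} = 0`,
and the refined Koblitz conjecture holds for `(E', t)`.

(2) The family contains curves with arbitrarily large `j`-invariant, good reduction at `7` and
`11`, and `|E(𝔽_7)| = 8`, `|E(𝔽_11)| = 13`; in particular no curve isogenous to them has a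
non-trivial rational torsion point.

(3) Let `E` be an integral Weierstrass equation with `c₄ c₆ ≠ 0`, isogenous to a curve `E₁` with
`j(E₁) = n³`, `n ∈ ℚ`, `n ≠ 0`, and let `s ∈ ℚ`, `s ≠ 0`. If `n = 12 + s²`, `t ≡ 2 mod 4` and `3 ∣ t`,
or if `n = 12 - 3 s²`, `t` is odd, `3 ∣ t` and `9 ∤ t`, then the same three conclusions hold for
`(E, t)`. -/
theorem result :
    (∀ (E : WeierstrassCurve ℤ) (w : ℚ), MemberFive E w →
      E.c₄ ≠ 0 ∧ E.c₆ ≠ 0 ∧ (∀ d : ℤ, d ≠ 0 → MemberFive (quadTwist E d) w) ∧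
      {p : ℕ | p.Prime ∧ 5 ∣ numPts E p ∧ ¬ 2 ∣ numPts E p}.Finite ∧
      ∀ E' : WeierstrassCurve ℤ, E'.c₄ ≠ 0 → E'.c₆ ≠ 0 →
        {p : ℕ | p.Prime ∧ numPts E' p ≠ numPts E p}.Finite →
        ∀ t : ℕ, Odd t → 5 ∣ t → KoblitzZero E' t) ∧
    (∀ B : ℚ, ∃ (E : WeierstrassCurve ℤ) (w : ℚ), MemberFive E w ∧
      B < (E.c₄ : ℚ) ^ 3 / (E.Δ : ℚ) ∧ ¬ ((7 : ℤ) ∣ E.Δ) ∧ numPts E 7 = 8 ∧
      ¬ ((11 : ℤ) ∣ E.Δ) ∧ numPts E 11 = 13) ∧
    (∀ E E₁ : WeierstrassCurve ℤ, E.c₄ ≠ 0 → E.c₆ ≠ 0 → E₁.Δ ≠ 0 →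
      {p : ℕ | p.Prime ∧ numPts E₁ p ≠ numPts E p}.Finite →
      ∀ n s : ℚ, n ≠ 0 → s ≠ 0 → (E₁.c₄ : ℚ) ^ 3 = n ^ 3 * E₁.Δ →
      ∀ t : ℕ, ((n = 12 + s ^ 2 ∧ t % 4 = 2 ∧ 3 ∣ t) ∨
        (n = 12 - 3 * s ^ 2 ∧ Odd t ∧ 3 ∣ t ∧ ¬ 9 ∣ t)) → KoblitzZero E t) := by
  refine ⟨?_, exists_memberFive, fun E E₁ h4 h6 h₁ hi₁ n s hn hs hj t ht =>
    NonsplitThree.koblitzZero_nonsplit E h4 h6 E₁ h₁ hi₁ n s hn hs hj t ht⟩
  intro E w h
  exact ⟨h.c₄_ne_zero, h.c₆_ne_zero, fun d hd => member_twist h hd, finite_odd h,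
    fun E' h4 h6 hiso t ht h5 => koblitzZero_five h E' h4 h6 hiso t ht h5⟩

end Pool.Agent.Results.MP_b89fd0_nt.ExceptionalFive
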