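import Pool.Agent.Helper95.KU.FiveInf
import Pool.Agent.Helper95.KU.FamThree
import Pool.Agent.Helper95.KU.FamGap
import Pool.Agent.Helper95.KU.DiscTwist
import Pool.Agent.Helper82.KZ.Infinite

set_option autoImplicit false

/-!
# Non-CM curves without a torsion obstruction and with vanishing Koblitz constant, for almost
all `t`

For every `t` outside the classes `28 mod 56` and `0 mod 336` there are infinitely many
`j`-invariants of elliptic curves `E` over `ℚ` for which the refined Koblitz conjecture for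
`(E, t)` holds with the constant `C_{E,t} = 0`, although the torsion of the curves in the isogeny
class gives no obstruction.
-/

namespace Pool.Agent.Results.MP_b89fd0_nt.UniformGaps

open Pool.Agent.Helper28.Koblitz Pool.Agent.Helper95.KU Filter

/-- The Koblitz problem for `(E, t)` has no torsion obstruction: there are two primes `p, q > 3` of
good reduction such that the greatest common divisor of `|E(𝔽_p)|` and `|E(𝔽_q)|` divides `t`. Then
the order of the torsion group of every curve isogenous to `E` divides `t`. -/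
def NoTorsionObstruction (E : WeierstrassCurve ℤ) (t : ℕ) : Prop :=
  ∃ p q : ℕ, p.Prime ∧ q.Prime ∧ 3 < p ∧ 3 < q ∧ ¬ ((p : ℤ) ∣ E.Δ) ∧ ¬ ((q : ℤ) ∣ E.Δ) ∧
    Nat.gcd (numPts E p) (numPts E q) ∣ t

theorem even_case (t : ℕ) (ht : Even t) (h28 : ¬ 28 ∣ t) (B : ℚ) : ∃ E : WeierstrassCurve ℤ,
    E.c₄ ≠ 0 ∧ E.c₆ ≠ 0 ∧ B < (E.c₄ : ℚ) ^ 3 / (E.Δ : ℚ) ∧ NoTorsionObstruction E t ∧
      KoblitzZero E t := by
  obtain ⟨E, v, h, hj, g5, n5, g7, n7⟩ := Pool.Agent.Helper82.KZ.exists_member B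
  refine ⟨E, h.c₄_ne_zero, h.c₆_ne_zero, hj, ⟨5, 7, by norm_num, by norm_num, by norm_num,
    by norm_num, g5, g7, ?_⟩, ?_⟩
  · rw [n5, n7]; norm_num
  · have hfin : {p : ℕ | p.Prime ∧ ¬ (Odd (numPts E p) ∨ 28 ∣ numPts E p)}.Finite :=
      Pool.Agent.Helper82.KZ.finite_exceptional h
    apply koblitz_of_finite E h.c₄_ne_zero h.c₆_ne_zero t 28 (by norm_num)
    refine hfin.subset ?_
    rintro p ⟨hp, hgood, u, hu, hN⟩
    refine ⟨hp, fun h1 => h28 ?_⟩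
    exact Pool.Agent.Helper82.KZ.dvd_of_unit_mul ht.two_dvd hN hu h1

theorem odd_case (t : ℕ) (ht : Odd t) (h5 : ¬ 5 ∣ t) (B : ℚ) : ∃ E : WeierstrassCurve ℤ,
    E.c₄ ≠ 0 ∧ E.c₆ ≠ 0 ∧ B < (E.c₄ : ℚ) ^ 3 / (E.Δ : ℚ) ∧ NoTorsionObstruction E t ∧
      KoblitzZero E t := by
  obtain ⟨b, hb, hj, g7, n7, g11, n11⟩ := exists_memT B
  refine ⟨memT b, memT_c₄_ne_zero hb, memT_c₆_ne_zero hb, hj, ⟨7, 11, by norm_num, by norm_num,
    by norm_num, by norm_num, g7, g11, ?_⟩, koblitzZero_memT hb t ht h5⟩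
  rw [n7, n11]; norm_num

theorem five_case (t : ℕ) (ht : Odd t) (h5 : 5 ∣ t) (B : ℚ) : ∃ E : WeierstrassCurve ℤ,
    E.c₄ ≠ 0 ∧ E.c₆ ≠ 0 ∧ B < (E.c₄ : ℚ) ^ 3 / (E.Δ : ℚ) ∧ NoTorsionObstruction E t ∧
      KoblitzZero E t := by
  obtain ⟨E, w, h, hj, g7, n7, g11, n11⟩ := exists_memberFive B
  refine ⟨E, h.c₄_ne_zero, h.c₆_ne_zero, hj, ⟨7, 11, by norm_num, by norm_num,
    by norm_num, by norm_num, g7, g11, ?_⟩, ?_⟩
  · rw [n7, n11]; norm_num
  · refine koblitzZero_five h E h.c₄_ne_zero h.c₆_ne_zero ?_ t ht h5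
    have : {p : ℕ | p.Prime ∧ numPts E p ≠ numPts E p} = ∅ := by
      ext p; simp
    rw [this]
    exact Set.finite_empty

theorem eight_case (t : ℕ) (ht : 8 ∣ t) (h3 : ¬ 3 ∣ t) (B : ℚ) : ∃ E : WeierstrassCurve ℤ,
    E.c₄ ≠ 0 ∧ E.c₆ ≠ 0 ∧ B < (E.c₄ : ℚ) ^ 3 / (E.Δ : ℚ) ∧ NoTorsionObstruction E t ∧
      KoblitzZero E t := by
  obtain ⟨l, hl, hj, g7, n7, g11, n11⟩ := exists_mem3 B
  refine ⟨mem3 l, mem3_c₄_ne_zero hl, mem3_c₆_ne_zero hl, hj, ⟨7, 11, by norm_num, by norm_num,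
    by norm_num, by norm_num, g7, g11, ?_⟩, koblitzZero_mem3 hl t ht h3⟩
  rw [n7, n11]
  exact dvd_trans (by norm_num) ht

theorem gap_case (t : ℕ) (ht : t % 16 = 8) (B : ℚ) : ∃ E : WeierstrassCurve ℤ,
    E.c₄ ≠ 0 ∧ E.c₆ ≠ 0 ∧ B < (E.c₄ : ℚ) ^ 3 / (E.Δ : ℚ) ∧ NoTorsionObstruction E t ∧
      KoblitzZero E t := by
  obtain ⟨k, hk, hj, g11, n11, g13, n13⟩ := exists_memG B
  refine ⟨memG k, memG_c₄_ne_zero hk, memG_c₆_ne_zero hk, hj, ⟨11, 13, by norm_num, by norm_num,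
    by norm_num, by norm_num, g11, g13, ?_⟩, koblitzZero_memG hk t ht⟩
  rw [n11, n13]
  have : 4 ∣ t := by omega
  exact dvd_trans (by norm_num) this

/-- **The refined Koblitz conjecture with vanishing constant and without a torsion obstruction.**

(1) Let `t` be a natural number with `t ≢ 28 mod 56` and `336 ∤ t`. There are elliptic curves `E`
over `ℚ`, with `c₄ c₆ ≠ 0` and arbitrarily large `j(E)`, such that the greatest common divisor of
`|E(𝔽_p)|` and `|E(𝔽_q)|` divides `t` for two primes `p, q > 3` of good reduction (so that the order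
of the torsion group of every curve isogenous to `E` divides `t`), only finitely many primes `p ∤ Δ`
have `|E(𝔽_p)|/t` prime, `C_{E,t} = 0`, and the refined Koblitz conjecture holds for `(E, t)`.

(2) Let `E` be an integral Weierstrass equation with `c₄ c₆ Δ ≠ 0` and let `e, n, m ∈ ℚ` be such that
`e³ - 27 c₄ e - 54 c₆ = 0` (a rational point of order two), `3 e² - 27 c₄ = -n²` and
`9 e² + 4 n² = 6 n m²`. Suppose that the quadratic twist of `E` by its discriminant is isogenous to a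
curve `E'` with `3 ∣ |E'(𝔽_p)|` for almost all `p`. Then `8 ∣ |E(𝔽_p)|` implies `3 ∣ |E(𝔽_p)|` for
almost all `p`, and for every `t` divisible by `8` and not by `3` only finitely many primes `p ∤ Δ`
have `|E(𝔽_p)|/t` prime, `C_{E,t} = 0`, and the refined Koblitz conjecture holds for `(E, t)`.

(3) For every integer `k ≥ 5`, the quadratic twist `E` by `-2` of the curve
`y² = x (x + (2k)⁴) (x + (k² - 1)⁴)` has `|E(𝔽_p)| ≡ 0` or `12 mod 16` for almost all primes `p`,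
and for every `t ≡ 8 mod 16` only finitely many primes `p ∤ Δ` have `|E(𝔽_p)|/t` prime,
`C_{E,t} = 0`, and the refined Koblitz conjecture holds for `(E, t)`.

(4) Let `E` be an integral Weierstrass equation with `c₄ c₆ ≠ 0` whose quadratic twist by its
discriminant is isogenous to a curve `E'` with a rational point of odd order `k > 1`. Then, for every
odd `t` not divisible by `k`, only finitely many primes `p ∤ Δ` have `|E(𝔽_p)|/t` prime,
`C_{E,t} = 0`, and the refined Koblitz conjecture holds for `(E, t)`. -/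
theorem result :
    (∀ t : ℕ, t % 56 ≠ 28 → ¬ 336 ∣ t → ∀ B : ℚ, ∃ E : WeierstrassCurve ℤ,
      E.c₄ ≠ 0 ∧ E.c₆ ≠ 0 ∧ B < (E.c₄ : ℚ) ^ 3 / (E.Δ : ℚ) ∧ NoTorsionObstruction E t ∧
      KoblitzZero E t) ∧
    (∀ E E' : WeierstrassCurve ℤ, E.c₄ ≠ 0 → E.c₆ ≠ 0 → E.Δ ≠ 0 → ∀ e n m : ℚ,
      e ^ 3 - 27 * E.c₄ * e - 54 * E.c₆ = 0 → 3 * e ^ 2 - 27 * E.c₄ = -n ^ 2 →
      9 * e ^ 2 + 4 * n ^ 2 = 6 * n * m ^ 2 →
      {p : ℕ | p.Prime ∧ numPts E' p ≠ numPts (quadTwist E E.Δ) p}.Finite →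
      {p : ℕ | p.Prime ∧ ¬ 3 ∣ numPts E' p}.Finite →
      {p : ℕ | p.Prime ∧ 8 ∣ numPts E p ∧ ¬ 3 ∣ numPts E p}.Finite ∧
      ∀ t : ℕ, 8 ∣ t → ¬ 3 ∣ t → KoblitzZero E t) ∧
    (∀ k : ℤ, 5 ≤ k → ∀ E : WeierstrassCurve ℤ,
      E = quadTwist ⟨0, (2 * k) ^ 4 + (k ^ 2 - 1) ^ 4, 0, (2 * k) ^ 4 * (k ^ 2 - 1) ^ 4, 0⟩ (-2) →
      {p : ℕ | p.Prime ∧ ¬ (16 ∣ numPts E p ∨ numPts E p % 16 = 12)}.Finite ∧
      ∀ t : ℕ, t % 16 = 8 → KoblitzZero E t) ∧
    (∀ E E' : WeierstrassCurve ℤ, E.c₄ ≠ 0 → E.c₆ ≠ 0 → E'.Δ ≠ 0 →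
      {p : ℕ | p.Prime ∧ numPts E' p ≠ numPts (quadTwist E E.Δ) p}.Finite →
      ∀ k : ℕ, Odd k → 1 < k → ∀ P : (overQ E').toAffine.Point, addOrderOf P = k →
      ∀ t : ℕ, Odd t → ¬ k ∣ t → KoblitzZero E t) := by
  refine ⟨?_, ?_, ?_, fun E E' h4 h6 hE' hiso k hk hk1 P hP t ht hkt =>
    DiscTwist.koblitzZero_disc E h4 h6 E' hE' hiso k hk hk1 P hP t ht hkt⟩
  · intro t h28 h336 B
    rcases Nat.even_or_odd t with ht | ht
    · by_cases h : 28 ∣ t
      · have h2 := ht.two_dvd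
        have h8 : 8 ∣ t := by omega
        by_cases h3 : 3 ∣ t
        · exact gap_case t (by omega) B
        · exact eight_case t h8 h3 B
      · exact even_case t ht h B
    · by_cases h5 : 5 ∣ t
      · exact five_case t ht h5 B
      · exact odd_case t ht h5 B
  · intro E E' h4 h6 hΔ e n m h1 h2 h3 hiso hthree
    exact ⟨finite_eight E E' hΔ ⟨h1, h2, h3⟩ hiso hthree,
      fun t ht8 ht3 => koblitzZero_eight E E' h4 h6 hΔ ⟨h1, h2, h3⟩ hiso hthree t ht8 ht3⟩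
  · rintro k hk E rfl
    exact ⟨finite_memG hk, fun t ht => koblitzZero_memG hk t ht⟩

end Pool.Agent.Results.MP_b89fd0_nt.UniformGaps
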