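import Pool.Agent.Helper28.Koblitz.Witness
import Pool.Agent.Helper82.KZ.Infinite

set_option autoImplicit false

/-!
# Curves with `|E(𝔽_p)|` odd or divisible by `28`, and the refined Koblitz conjecture

There are infinitely many elliptic curves `E` over `ℚ`, without complex multiplication and with
infinitely many different `j`-invariants, such that `|E(𝔽_p)|` is odd or divisible by `28` for
almost all primes `p`, although no curve isogenous to `E` has a nontrivial rational torsion point.
For these `E`, all curves isogenous to `E` and all even `t` not divisible by `28` the refined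
Koblitz conjecture holds, with `C_{E,t} = 0`.
-/

namespace Pool.Agent.Helper80.KC.TE

open Pool.Agent.Helper28.Koblitz Pool.Agent.Helper82.KZ Filter

/-- The refined Koblitz conjecture for `(E, t)` with vanishing constant: there are only finitely
many primes `p ∤ Δ` such that `|E(𝔽_p)|/t` is a prime, `C_{E,t} = 0`, and the refined Koblitz
conjecture holds for `(E, t)`. -/
def KoblitzZero (E : WeierstrassCurve ℤ) (t : ℕ) : Prop :=
  {p : ℕ | p.Prime ∧ ¬ (((p : ℕ) : ℤ) ∣ E.Δ) ∧ t ∣ numPts E p ∧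
      Nat.Prime (numPts E p / t)}.Finite ∧ ConstantZero E t ∧ RefinedKoblitz E t

/-- `E` is an elliptic curve without complex multiplication, as in the frozen statement: `Δ ≠ 0` and
`j(E)` is not one of the 13 rational `j`-invariants with complex multiplication. -/
def NonCM (E : WeierstrassCurve ℤ) : Prop :=
  E.Δ ≠ 0 ∧ ((E.c₄ : ℚ) ^ 3 / (E.Δ : ℚ)) ∉ ({0, 1728, -3375, 8000, -32768, 54000, 287496, -884736,
    -12288000, 16581375, -884736000, -147197952000, -262537412640768000} : Set ℚ)

theorem NonCM.c_ne_zero {E : WeierstrassCurve ℤ} (h : NonCM E) : E.c₄ ≠ 0 ∧ E.c₆ ≠ 0 := by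
  obtain ⟨h0, h1⟩ := h
  simp only [Set.mem_insert_iff, Set.mem_singleton_iff, not_or] at h1
  refine ⟨fun h4 => h1.1 (by rw [h4]; simp), fun h6 => h1.2.1 ?_⟩
  have hr := E.c_relation
  rw [h6] at hr
  have hr' : (1728 : ℚ) * (E.Δ : ℚ) = (E.c₄ : ℚ) ^ 3 := by
    have := congrArg (Int.cast : ℤ → ℚ) hr
    push_cast at this
    linarith
  have hD : (E.Δ : ℚ) ≠ 0 := by exact_mod_cast h0
  rw [← hr', mul_div_assoc, div_self hD, mul_one]

/-- For every bound `B` there is an elliptic curve `E` over `ℚ` without complex multiplication,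
with `j(E) > B`, such that `|E(𝔽_p)|` is odd or divisible
by `28` for almost all primes `p`, while `E` has good reduction at `5` and `7` and `|E(𝔽_5)| = 5`,
`|E(𝔽_7)| = 11` (so no curve isogenous to `E` has a nontrivial rational torsion point); and for
every curve `E'` isogenous to `E` and every even `t` not divisible by `28` the refined Koblitz
conjecture holds for `(E', t)` and `C_{E',t} = 0`. -/
theorem twenty_eight (B : ℚ) :
    ∃ E : WeierstrassCurve ℤ, NonCM E ∧ B < (E.c₄ : ℚ) ^ 3 / (E.Δ : ℚ) ∧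
      {p : ℕ | p.Prime ∧ ¬ (Odd (numPts E p) ∨ 28 ∣ numPts E p)}.Finite ∧
      (¬ ((5 : ℤ) ∣ E.Δ) ∧ numPts E 5 = 5 ∧ ¬ ((7 : ℤ) ∣ E.Δ) ∧ numPts E 7 = 11) ∧
      ∀ E' : WeierstrassCurve ℤ, NonCM E' →
        {p : ℕ | p.Prime ∧ numPts E' p ≠ numPts E p}.Finite →
        ∀ t : ℕ, Even t → ¬ 28 ∣ t → KoblitzZero E' t := by
  obtain ⟨E, v, h, hj', h5, h5', h7, h7'⟩ := exists_member (max B 16581375)
  have hj : B < (E.c₄ : ℚ) ^ 3 / (E.Δ : ℚ) := lt_of_le_of_lt (le_max_left _ _) hj'
  have hj2 : (16581375 : ℚ) < (E.c₄ : ℚ) ^ 3 / (E.Δ : ℚ) := lt_of_le_of_lt (le_max_right _ _) hj'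
  have hcm : NonCM E := by
    refine ⟨?_, ?_⟩
    · intro h0
      rw [h0] at hj2
      norm_num at hj2
    · intro hmem
      simp only [Set.mem_insert_iff, Set.mem_singleton_iff] at hmem
      rcases hmem with e | e | e | e | e | e | e | e | e | e | e | e | e <;>
        (rw [e] at hj2; norm_num at hj2)
  have hfin : {p : ℕ | p.Prime ∧ ¬ (Odd (numPts E p) ∨ 28 ∣ numPts E p)}.Finite :=
    finite_exceptional h
  refine ⟨E, hcm, hj, hfin, ⟨h5, h5', h7, h7'⟩, ?_⟩
  intro E' hE' hiso t ht h28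
  obtain ⟨h4, h6⟩ := hE'.c_ne_zero
  apply koblitz_of_finite E' h4 h6 t 28 (by norm_num)
  refine (hfin.union hiso).subset ?_
  rintro p ⟨hp, hgood, u, hu, hN⟩
  by_contra hcon
  rw [Set.mem_union, not_or] at hcon
  obtain ⟨c1, c2⟩ := hcon
  have heq : numPts E' p = numPts E p := by
    by_contra hne
    exact c2 ⟨hp, hne⟩
  have h1 : Odd (numPts E p) ∨ 28 ∣ numPts E p := by
    by_contra hne
    exact c1 ⟨hp, hne⟩
  rw [← heq] at h1
  exact h28 (dvd_of_unit_mul ht.two_dvd hN hu h1)

end Pool.Agent.Helper80.KC.TE
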